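import Mathlib
import Pool.Agent.Q102.Trade3Main

/-!
MP_35f484_co, Q1 (proved): every complete simple game with exactly three types of voters that is
3-trade robust is weighted.
-/

namespace Pool.Agent.Results.MP_35f484_co.ThreeTypes

open Finset Pool.Agent.Q102.Trade

/-- **Q1 of MP_35f484_co (proved).** A complete simple game with exactly three types of voters
that is `3`-trade robust is weighted. -/
theorem result {N : Type*} [Fintype N] [DecidableEq N] (W : Finset N → Prop)
    (hW : IsSimple W) (_hc : Complete W) (ht : numTypes W = 3) (hr : TradeRobust 3 W) :
    Weighted W :=
  weighted_of_three hW ht hr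

end Pool.Agent.Results.MP_35f484_co.ThreeTypes
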